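import Mathlib

/-!
Families of vectors `v : Z → E` which factor through a Hilbert space:
`v z = ∑ i, s z i • Om i` with `∑ i, ‖Om i‖ ^ 2 ≤ c` and `∑ i, ‖s z i‖ ^ 2 ≤ c` for all `z`.
-/

namespace Pool.Agent.H27.AD

open Finset

variable {Z E E' : Type} [NormedAddCommGroup E] [NormedSpace ℂ E]
  [NormedAddCommGroup E'] [NormedSpace ℂ E']

/-- The family `v` factors through a Hilbert space with cost `c`. -/
def Rep (c : ℝ) (v : Z → E) : Prop :=
  ∃ (S : Type) (_ : Fintype S) (Om : S → E) (s : Z → S → ℂ),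
    (∑ i, ‖Om i‖ ^ 2 ≤ c) ∧ (∀ z, ∑ i, ‖s z i‖ ^ 2 ≤ c) ∧ ∀ z, v z = ∑ i, s z i • Om i

theorem Rep.nonneg {c : ℝ} {v : Z → E} (h : Rep c v) : 0 ≤ c := by
  obtain ⟨S, _, Om, s, h1, _, _⟩ := h
  exact le_trans (Finset.sum_nonneg fun i _ => by positivity) h1

theorem Rep.mono {c c' : ℝ} {v : Z → E} (h : Rep c v) (hc : c ≤ c') : Rep c' v := by
  obtain ⟨S, i, Om, s, h1, h2, h3⟩ := h
  exact ⟨S, i, Om, s, h1.trans hc, fun z => (h2 z).trans hc, h3⟩

theorem Rep.congr {c : ℝ} {v v' : Z → E} (h : Rep c v) (hv : ∀ z, v' z = v z) : Rep c v' := by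
  obtain ⟨S, i, Om, s, h1, h2, h3⟩ := h
  exact ⟨S, i, Om, s, h1, h2, fun z => (hv z).trans (h3 z)⟩

theorem Rep.zero {c : ℝ} (hc : 0 ≤ c) : Rep c (fun _ : Z => (0 : E)) :=
  ⟨Empty, inferInstance, fun _ => 0, fun _ _ => 0, by simpa using hc, fun _ => by simpa using hc,
    fun z => by simp⟩

/-- Rebalancing. -/
theorem Rep.of_two {S : Type} [Fintype S] (Om : S → E) (s : Z → S → ℂ) {c c₁ c₂ : ℝ}
    (h1 : ∑ i, ‖Om i‖ ^ 2 ≤ c₁) (h2 : ∀ z, ∑ i, ‖s z i‖ ^ 2 ≤ c₂) (hc : 0 ≤ c)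
    (h12 : c₁ * c₂ ≤ c ^ 2) : Rep c (fun z => ∑ i, s z i • Om i) := by
  have hc1 : 0 ≤ c₁ := le_trans (Finset.sum_nonneg fun i _ => by positivity) h1
  rcases isEmpty_or_nonempty Z with hZ | ⟨⟨z0⟩⟩
  · exact ⟨Empty, inferInstance, fun _ => 0, fun _ _ => 0, by simpa using hc,
      fun _ => by simpa using hc, fun z => (hZ.false z).elim⟩
  have hc2 : 0 ≤ c₂ := le_trans (Finset.sum_nonneg fun i _ => by positivity) (h2 z0)
  rcases eq_or_lt_of_le hc1 with e1 | p1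
  · have h0 : ∀ i, Om i = 0 := by
      intro i
      have := Finset.single_le_sum (f := fun i => ‖Om i‖ ^ 2) (fun i _ => by positivity)
        (Finset.mem_univ i)
      have h3 : ‖Om i‖ ^ 2 ≤ 0 := by rw [e1]; exact this.trans h1
      have h4 : ‖Om i‖ = 0 := by nlinarith [norm_nonneg (Om i)]
      exact norm_eq_zero.mp h4
    exact (Rep.zero hc).congr fun z => by simp [h0]
  rcases eq_or_lt_of_le hc2 with e2 | p2
  · have h0 : ∀ z i, s z i = 0 := by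
      intro z i
      have := Finset.single_le_sum (f := fun i => ‖s z i‖ ^ 2) (fun i _ => by positivity)
        (Finset.mem_univ i)
      have h3 : ‖s z i‖ ^ 2 ≤ 0 := by rw [e2]; exact this.trans (h2 z)
      have h4 : ‖s z i‖ = 0 := by nlinarith [norm_nonneg (s z i)]
      exact norm_eq_zero.mp h4
    exact (Rep.zero hc).congr fun z => by simp [h0]
  have pc : 0 < c := by
    rcases eq_or_lt_of_le hc with h | h
    · exfalso
      rw [← h] at h12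
      nlinarith [mul_pos p1 p2]
    · exact h
  set t : ℝ := Real.sqrt (c / c₁) with ht
  have tpos : 0 < t := Real.sqrt_pos.mpr (div_pos pc p1)
  have t2 : t ^ 2 = c / c₁ := Real.sq_sqrt (div_pos pc p1).le
  refine ⟨S, inferInstance, fun i => (t : ℂ) • Om i, fun z i => s z i / t, ?_, ?_, ?_⟩
  · have : ∑ i, ‖(t : ℂ) • Om i‖ ^ 2 = t ^ 2 * ∑ i, ‖Om i‖ ^ 2 := by
      rw [Finset.mul_sum]
      refine Finset.sum_congr rfl fun i _ => ?_
      rw [norm_smul, mul_pow, Complex.norm_real, Real.norm_eq_abs, sq_abs]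
    rw [this, t2]
    calc c / c₁ * ∑ i, ‖Om i‖ ^ 2 ≤ c / c₁ * c₁ :=
          mul_le_mul_of_nonneg_left h1 (div_nonneg hc hc1)
      _ = c := by field_simp
  · intro z
    have : ∑ i, ‖s z i / (t : ℂ)‖ ^ 2 = (∑ i, ‖s z i‖ ^ 2) / t ^ 2 := by
      rw [Finset.sum_div]
      refine Finset.sum_congr rfl fun i _ => ?_
      rw [norm_div, div_pow, Complex.norm_real, Real.norm_eq_abs, sq_abs]
    rw [this, t2, div_le_iff₀ (div_pos pc p1)]
    calc ∑ i, ‖s z i‖ ^ 2 ≤ c₂ := h2 z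
      _ ≤ c ^ 2 / c₁ := by rw [le_div_iff₀ p1]; linarith [mul_comm c₁ c₂]
      _ = c * (c / c₁) := by ring
  · intro z
    refine Finset.sum_congr rfl fun i _ => ?_
    rw [smul_smul, div_mul_cancel₀]
    exact_mod_cast tpos.ne'

theorem Rep.add {c c' : ℝ} {v v' : Z → E} (h : Rep c v) (h' : Rep c' v') :
    Rep (c + c') (fun z => v z + v' z) := by
  obtain ⟨S, i, Om, s, h1, h2, h3⟩ := h
  obtain ⟨S', i', Om', s', h1', h2', h3'⟩ := h'
  refine ⟨S ⊕ S', inferInstance, Sum.elim Om Om', fun z => Sum.elim (s z) (s' z), ?_, ?_, ?_⟩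
  · simp only [Fintype.sum_sum_type, Sum.elim_inl, Sum.elim_inr]
    exact add_le_add h1 h1'
  · intro z
    simp only [Fintype.sum_sum_type, Sum.elim_inl, Sum.elim_inr]
    exact add_le_add (h2 z) (h2' z)
  · intro z
    simp only [Fintype.sum_sum_type, Sum.elim_inl, Sum.elim_inr, h3 z, h3' z]

/-- Clause sums. -/
theorem Rep.clause {J : Type} [Fintype J] {c K Φ Θ : ℝ} {v : Z → E} (h : Rep c v)
    (f : Z → J → ℂ) (A : J → E →ₗ[ℂ] E') (hf : ∀ z, ∑ j, ‖f z j‖ ^ 2 ≤ Φ)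
    (hA : ∀ u, ∑ j, ‖A j u‖ ^ 2 ≤ Θ * ‖u‖ ^ 2) (hK : 0 ≤ K) (hΘ : 0 ≤ Θ)
    (hKK : Θ * Φ ≤ K ^ 2) :
    Rep (K * c) (fun z => ∑ j, f z j • A j (v z)) := by
  have hc := h.nonneg
  obtain ⟨S, i, Om, s, h1, h2, h3⟩ := h
  refine Rep.congr (Rep.of_two (S := J × S) (fun p => A p.1 (Om p.2))
    (fun z p => f z p.1 * s z p.2) (c₁ := Θ * c) (c₂ := Φ * c) ?_ ?_ (mul_nonneg hK hc) ?_) ?_
  · calc ∑ p : J × S, ‖A p.1 (Om p.2)‖ ^ 2 = ∑ i, ∑ j, ‖A j (Om i)‖ ^ 2 := by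
          rw [Fintype.sum_prod_type, Finset.sum_comm]
      _ ≤ ∑ i, Θ * ‖Om i‖ ^ 2 := Finset.sum_le_sum fun i _ => hA _
      _ = Θ * ∑ i, ‖Om i‖ ^ 2 := by rw [Finset.mul_sum]
      _ ≤ Θ * c := mul_le_mul_of_nonneg_left h1 hΘ
  · intro z
    have hΦ : 0 ≤ Φ := le_trans (Finset.sum_nonneg fun i _ => by positivity) (hf z)
    calc ∑ p : J × S, ‖f z p.1 * s z p.2‖ ^ 2
        = (∑ j, ‖f z j‖ ^ 2) * ∑ i, ‖s z i‖ ^ 2 := by
          rw [Fintype.sum_prod_type, Finset.sum_mul_sum]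
          refine Finset.sum_congr rfl fun j _ => Finset.sum_congr rfl fun i _ => ?_
          rw [norm_mul, mul_pow]
      _ ≤ Φ * c := mul_le_mul (hf z) (h2 z) (Finset.sum_nonneg fun i _ => by positivity) hΦ
  · calc Θ * c * (Φ * c) = Θ * Φ * c ^ 2 := by ring
      _ ≤ K ^ 2 * c ^ 2 := mul_le_mul_of_nonneg_right hKK (by positivity)
      _ = (K * c) ^ 2 := by ring
  · intro z
    rw [Fintype.sum_prod_type]
    refine Finset.sum_congr rfl fun j _ => ?_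
    rw [h3 z, map_sum, Finset.smul_sum]
    refine Finset.sum_congr rfl fun i _ => ?_
    rw [map_smul, smul_smul]

/-- Fixed linear maps. -/
theorem Rep.map {c a : ℝ} {v : Z → E} (h : Rep c v) (A : E →ₗ[ℂ] E') (ha : 0 ≤ a)
    (hA : ∀ u, ‖A u‖ ≤ a * ‖u‖) : Rep (a * c) (fun z => A (v z)) := by
  refine Rep.congr (h.clause (J := Unit) (Φ := 1) (Θ := a ^ 2) (fun _ _ => 1) (fun _ => A)
    (fun _ => by simp) (fun u => ?_) ha (by positivity) (by simp)) fun z => by simp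
  simp only [Finset.univ_unique, Finset.sum_const, Finset.card_singleton, one_smul]
  calc ‖A u‖ ^ 2 ≤ (a * ‖u‖) ^ 2 := by gcongr; exact hA u
    _ = a ^ 2 * ‖u‖ ^ 2 := by ring

/-- Scalars depending on `z`. -/
theorem Rep.smul {c a : ℝ} {v : Z → E} (h : Rep c v) (g : Z → ℂ) (ha : 0 ≤ a)
    (hg : ∀ z, ‖g z‖ ≤ a) : Rep (a * c) (fun z => g z • v z) := by
  refine Rep.congr (h.clause (J := Unit) (Φ := a ^ 2) (Θ := 1) (fun z _ => g z)
    (fun _ => LinearMap.id) (fun z => ?_) (fun u => by simp) ha (by positivity) (by simp))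
    fun z => by simp
  simp only [Finset.univ_unique, Finset.sum_const, Finset.card_singleton, one_smul]
  gcongr
  exact hg z

/-- Scalars depending on `z`, of modulus at most one. -/
theorem Rep.smul_one {c : ℝ} {v : Z → E} (h : Rep c v) (g : Z → ℂ)
    (hg : ∀ z, ‖g z‖ ≤ 1) : Rep c (fun z => g z • v z) := by
  simpa using h.smul g zero_le_one hg

theorem Rep.neg {c : ℝ} {v : Z → E} (h : Rep c v) : Rep c (fun z => - v z) := by
  refine (h.smul_one (fun _ => -1) (fun _ => by simp)).congr fun z => by simp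

theorem Rep.sub {c c' : ℝ} {v v' : Z → E} (h : Rep c v) (h' : Rep c' v') :
    Rep (c + c') (fun z => v z - v' z) :=
  (h.add h'.neg).congr fun z => by rw [sub_eq_add_neg]

/-- Finite sums. -/
theorem Rep.sum {I : Type} {c : I → ℝ} {v : I → Z → E} (t : Finset I)
    (h : ∀ i ∈ t, Rep (c i) (v i)) : Rep (∑ i ∈ t, c i) (fun z => ∑ i ∈ t, v i z) := by
  classical
  induction t using Finset.induction_on with
  | empty => simpa using Rep.zero (Z := Z) (E := E) le_rfl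
  | insert a t ha ih =>
    have h1 := h a (Finset.mem_insert_self a t)
    have h2 := ih fun i hi => h i (Finset.mem_insert_of_mem hi)
    refine ((h1.add h2).mono (by rw [Finset.sum_insert ha])).congr fun z => ?_
    rw [Finset.sum_insert ha]

/-- Sums of fixed linear maps with coefficients depending on `z`. -/
theorem Rep.comb {I : Type} [Fintype I] {c : ℝ} {v : Z → E} (h : Rep c v) (g : Z → I → ℂ)
    (A : I → E →ₗ[ℂ] E') (a b : I → ℝ) (ha : ∀ i, 0 ≤ a i) (hb : ∀ i, 0 ≤ b i)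
    (hg : ∀ z i, ‖g z i‖ ≤ a i) (hA : ∀ i u, ‖A i u‖ ≤ b i * ‖u‖) :
    Rep ((∑ i, a i * b i) * c) (fun z => ∑ i, g z i • A i (v z)) := by
  have := Rep.sum (Z := Z) (c := fun i => a i * (b i * c)) (v := fun i z => g z i • A i (v z))
    Finset.univ (fun i _ => (h.map (A i) (hb i) (hA i)).smul (fun z => g z i) (ha i)
      (fun z => hg z i))
  refine this.mono (le_of_eq ?_)
  rw [Finset.sum_mul]
  exact Finset.sum_congr rfl fun i _ => by ring

/-- A family of vectors of norm at most one in a space spanned by `r` fixed vectors. -/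
theorem Rep.span {I : Type} [Fintype I] {r : ℝ} (e : I → E) (g : Z → I → ℂ)
    (he : ∀ i, ‖e i‖ ≤ 1) (hg : ∀ z, ∑ i, ‖g z i‖ ^ 2 ≤ 1) (hr : (Fintype.card I : ℝ) ≤ r) :
    Rep (Real.sqrt r) (fun z => ∑ i, g z i • e i) := by
  refine Rep.of_two e g (c₁ := r) (c₂ := 1) ?_ hg (Real.sqrt_nonneg _) ?_
  · calc ∑ i, ‖e i‖ ^ 2 ≤ ∑ _i : I, (1 : ℝ) :=
          Finset.sum_le_sum fun i _ => by
            have := he i
            have h0 := norm_nonneg (e i)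
            nlinarith
      _ = Fintype.card I := by simp
      _ ≤ r := hr
  · rw [Real.sq_sqrt (le_trans (Nat.cast_nonneg _) hr)]; simp

/-- A fixed vector. -/
theorem Rep.const (u : E) (hu : ‖u‖ ≤ 1) : Rep 1 (fun _ : Z => u) := by
  refine ⟨Unit, inferInstance, fun _ => u, fun _ _ => 1, ?_, fun _ => by simp, fun z => by simp⟩
  simp only [Finset.univ_unique, Finset.sum_const, Finset.card_singleton, one_smul]
  have h0 := norm_nonneg u
  nlinarith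

/-- The near lemma. -/
theorem Rep.near [Fintype Z] {F : Type} [NormedAddCommGroup F] [NormedSpace ℂ F] {c B : ℝ}
    {v : Z → E} (h : Rep c v) (P : Z → E →ₗ[ℂ] F) (hB : 0 ≤ B)
    (hP : ∀ u, ∑ z, ‖P z u‖ ^ 2 ≤ B * ‖u‖ ^ 2) : ∑ z, ‖P z (v z)‖ ^ 2 ≤ B * c ^ 2 := by
  have hc := h.nonneg
  obtain ⟨S, i, Om, s, h1, h2, h3⟩ := h
  have key : ∀ z, ‖P z (v z)‖ ^ 2 ≤ c * ∑ i, ‖P z (Om i)‖ ^ 2 := by
    intro z
    have h4 : ‖P z (v z)‖ ≤ ∑ i, ‖s z i‖ * ‖P z (Om i)‖ := by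
      rw [h3 z, map_sum]
      refine (norm_sum_le _ _).trans (Finset.sum_le_sum fun i _ => ?_)
      rw [map_smul, norm_smul]
    calc ‖P z (v z)‖ ^ 2 ≤ (∑ i, ‖s z i‖ * ‖P z (Om i)‖) ^ 2 := by
          gcongr
      _ ≤ (∑ i, ‖s z i‖ ^ 2) * ∑ i, ‖P z (Om i)‖ ^ 2 :=
          Finset.sum_mul_sq_le_sq_mul_sq _ _ _
      _ ≤ c * ∑ i, ‖P z (Om i)‖ ^ 2 :=
          mul_le_mul_of_nonneg_right (h2 z) (Finset.sum_nonneg fun i _ => by positivity)
  calc ∑ z, ‖P z (v z)‖ ^ 2 ≤ ∑ z, c * ∑ i, ‖P z (Om i)‖ ^ 2 :=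
        Finset.sum_le_sum fun z _ => key z
    _ = c * ∑ i, ∑ z, ‖P z (Om i)‖ ^ 2 := by rw [← Finset.mul_sum, Finset.sum_comm]
    _ ≤ c * ∑ i, B * ‖Om i‖ ^ 2 :=
        mul_le_mul_of_nonneg_left (Finset.sum_le_sum fun i _ => hP _) hc
    _ = c * B * ∑ i, ‖Om i‖ ^ 2 := by rw [← Finset.mul_sum]; ring
    _ ≤ c * B * c := mul_le_mul_of_nonneg_left h1 (mul_nonneg hc hB)
    _ = B * c ^ 2 := by ring

end Pool.Agent.H27.AD
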