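import Mathlib
import Pool.Agent.H27.AD.Rep

/-!
Families of vectors which are the sum of a factorable family and of a family which is small in
`ℓ²`.
-/

namespace Pool.Agent.H27.AD

open Finset

variable {Z E E' F : Type} [Fintype Z] [NormedAddCommGroup E] [NormedSpace ℂ E]
  [NormedAddCommGroup E'] [NormedSpace ℂ E'] [NormedAddCommGroup F] [NormedSpace ℂ F]

/-- The `ℓ²` norm of a family. -/
noncomputable def N2 (v : Z → E) : ℝ := Real.sqrt (∑ z, ‖v z‖ ^ 2)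

omit [NormedSpace ℂ E] in
theorem N2_nonneg (v : Z → E) : 0 ≤ N2 v := Real.sqrt_nonneg _

omit [NormedSpace ℂ E] in
theorem N2_sq (v : Z → E) : N2 v ^ 2 = ∑ z, ‖v z‖ ^ 2 :=
  Real.sq_sqrt (Finset.sum_nonneg fun _ _ => by positivity)

omit [NormedSpace ℂ E] in
theorem N2_le {v : Z → E} {a : ℝ} (ha : 0 ≤ a) (h : ∑ z, ‖v z‖ ^ 2 ≤ a ^ 2) : N2 v ≤ a := by
  rw [N2, Real.sqrt_le_left ha]
  exact h

omit [NormedSpace ℂ E] in
theorem N2_eq (v : Z → E) :
    N2 v = ‖(WithLp.toLp 2 v : PiLp 2 (fun _ : Z => E))‖ := by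
  rw [PiLp.norm_eq_of_L2]
  rfl

omit [NormedSpace ℂ E] in
theorem N2_add (v w : Z → E) : N2 (fun z => v z + w z) ≤ N2 v + N2 w := by
  rw [N2_eq, N2_eq, N2_eq]
  have : (WithLp.toLp 2 (fun z => v z + w z) : PiLp 2 (fun _ : Z => E)) =
      WithLp.toLp 2 v + WithLp.toLp 2 w := rfl
  rw [this]
  exact norm_add_le _ _

omit [NormedSpace ℂ E] [NormedSpace ℂ E'] in
theorem N2_mono {v : Z → E} {w : Z → E'} {a : ℝ} (ha : 0 ≤ a) (h : ∀ z, ‖v z‖ ≤ a * ‖w z‖) :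
    N2 v ≤ a * N2 w := by
  refine N2_le (mul_nonneg ha (N2_nonneg _)) ?_
  rw [mul_pow, N2_sq, Finset.mul_sum]
  refine Finset.sum_le_sum fun z _ => ?_
  calc ‖v z‖ ^ 2 ≤ (a * ‖w z‖) ^ 2 := by gcongr; exact h z
    _ = a ^ 2 * ‖w z‖ ^ 2 := by ring

omit [NormedSpace ℂ E] in
theorem N2_zero : N2 (fun _ : Z => (0 : E)) = 0 := by
  simp [N2]

/-- Sum of a factorable and of a small family. -/
def Good (B c : ℝ) (v : Z → E) : Prop :=
  ∃ v₁ v₂ : Z → E, (∀ z, v z = v₁ z + v₂ z) ∧ Rep c v₁ ∧ N2 v₂ ≤ Real.sqrt B * c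

theorem Rep.good {B c : ℝ} {v : Z → E} (h : Rep c v) : Good B c v :=
  ⟨v, fun _ => 0, fun z => by simp, h, by
    rw [N2_zero]; exact mul_nonneg (Real.sqrt_nonneg _) h.nonneg⟩

theorem Good.nonneg {B c : ℝ} {v : Z → E} (h : Good B c v) : 0 ≤ c := by
  obtain ⟨_, _, _, h1, _⟩ := h
  exact h1.nonneg

theorem Good.mono {B c c' : ℝ} {v : Z → E} (h : Good B c v) (hc : c ≤ c') : Good B c' v := by
  obtain ⟨v1, v2, h0, h1, h2⟩ := h
  exact ⟨v1, v2, h0, h1.mono hc, h2.trans (mul_le_mul_of_nonneg_left hc (Real.sqrt_nonneg _))⟩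

theorem Good.congr {B c : ℝ} {v v' : Z → E} (h : Good B c v) (hv : ∀ z, v' z = v z) :
    Good B c v' := by
  obtain ⟨v1, v2, h0, h1, h2⟩ := h
  exact ⟨v1, v2, fun z => (hv z).trans (h0 z), h1, h2⟩

theorem Good.zero {B c : ℝ} (hc : 0 ≤ c) : Good B c (fun _ : Z => (0 : E)) :=
  (Rep.zero hc).good

/-- A small family. -/
theorem Good.small {B c : ℝ} {v : Z → E} (hc : 0 ≤ c) (h : N2 v ≤ Real.sqrt B * c) :
    Good B c v :=
  ⟨fun _ => 0, v, fun z => by simp, Rep.zero hc, h⟩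

theorem Good.add {B c c' : ℝ} {v v' : Z → E} (h : Good B c v) (h' : Good B c' v') :
    Good B (c + c') (fun z => v z + v' z) := by
  obtain ⟨v1, v2, h0, h1, h2⟩ := h
  obtain ⟨w1, w2, k0, k1, k2⟩ := h'
  refine ⟨fun z => v1 z + w1 z, fun z => v2 z + w2 z, fun z => ?_, h1.add k1, ?_⟩
  · simp only [h0 z, k0 z]; abel
  · calc N2 (fun z => v2 z + w2 z) ≤ N2 v2 + N2 w2 := N2_add _ _
      _ ≤ Real.sqrt B * c + Real.sqrt B * c' := add_le_add h2 k2
      _ = Real.sqrt B * (c + c') := by ring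

theorem Good.sum {I : Type} {B : ℝ} {c : I → ℝ} {v : I → Z → E} (t : Finset I)
    (h : ∀ i ∈ t, Good B (c i) (v i)) :
    Good B (∑ i ∈ t, c i) (fun z => ∑ i ∈ t, v i z) := by
  classical
  induction t using Finset.induction_on with
  | empty => simpa using Good.zero (B := B) (Z := Z) (E := E) le_rfl
  | insert a t ha ih =>
    have h1 := h a (Finset.mem_insert_self a t)
    have h2 := ih fun i hi => h i (Finset.mem_insert_of_mem hi)
    refine ((h1.add h2).mono (by rw [Finset.sum_insert ha])).congr fun z => ?_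
    rw [Finset.sum_insert ha]

/-- Clause sums. -/
theorem Good.clause {J : Type} [Fintype J] {B c K Φ Θ : ℝ} {v : Z → E} (h : Good B c v)
    (f : Z → J → ℂ) (A : J → E →ₗ[ℂ] E') (hf : ∀ z, ∑ j, ‖f z j‖ ^ 2 ≤ Φ)
    (hA : ∀ u, ∑ j, ‖A j u‖ ^ 2 ≤ Θ * ‖u‖ ^ 2) (hK : 0 ≤ K) (hΘ : 0 ≤ Θ)
    (hKK : Θ * Φ ≤ K ^ 2) :
    Good B (K * c) (fun z => ∑ j, f z j • A j (v z)) := by
  obtain ⟨v1, v2, h0, h1, h2⟩ := h
  refine ⟨_, fun z => ∑ j, f z j • A j (v2 z), fun z => ?_,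
    h1.clause f A hf hA hK hΘ hKK, ?_⟩
  · rw [← Finset.sum_add_distrib]
    refine Finset.sum_congr rfl fun j _ => ?_
    rw [h0 z, map_add, smul_add]
  · refine (N2_mono (w := v2) hK fun z => ?_).trans ?_
    · have h4 : ‖∑ j, f z j • A j (v2 z)‖ ≤ ∑ j, ‖f z j‖ * ‖A j (v2 z)‖ :=
        (norm_sum_le _ _).trans (Finset.sum_le_sum fun j _ => by rw [norm_smul])
      have hS : 0 ≤ ∑ j, ‖A j (v2 z)‖ ^ 2 := Finset.sum_nonneg fun j _ => by positivity
      have hΦ : 0 ≤ Φ := le_trans (Finset.sum_nonneg fun j _ => by positivity) (hf z)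
      have h5 : (∑ j, ‖f z j‖ * ‖A j (v2 z)‖) ^ 2 ≤ (K * ‖v2 z‖) ^ 2 := by
        calc (∑ j, ‖f z j‖ * ‖A j (v2 z)‖) ^ 2
            ≤ (∑ j, ‖f z j‖ ^ 2) * ∑ j, ‖A j (v2 z)‖ ^ 2 :=
              Finset.sum_mul_sq_le_sq_mul_sq _ _ _
          _ ≤ Φ * (Θ * ‖v2 z‖ ^ 2) := mul_le_mul (hf z) (hA _) hS hΦ
          _ = Θ * Φ * ‖v2 z‖ ^ 2 := by ring
          _ ≤ K ^ 2 * ‖v2 z‖ ^ 2 := mul_le_mul_of_nonneg_right hKK (by positivity)
          _ = (K * ‖v2 z‖) ^ 2 := by ring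
      exact h4.trans (abs_le_of_sq_le_sq' h5 (mul_nonneg hK (norm_nonneg _))).2
    · calc K * N2 v2 ≤ K * (Real.sqrt B * c) := mul_le_mul_of_nonneg_left h2 hK
        _ = Real.sqrt B * (K * c) := by ring

/-- Fixed linear maps. -/
theorem Good.map {B c a : ℝ} {v : Z → E} (h : Good B c v) (A : E →ₗ[ℂ] E') (ha : 0 ≤ a)
    (hA : ∀ u, ‖A u‖ ≤ a * ‖u‖) : Good B (a * c) (fun z => A (v z)) := by
  refine Good.congr (h.clause (J := Unit) (Φ := 1) (Θ := a ^ 2) (fun _ _ => 1) (fun _ => A)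
    (fun _ => by simp) (fun u => ?_) ha (by positivity) (by simp)) fun z => by simp
  simp only [Finset.univ_unique, Finset.sum_const, Finset.card_singleton, one_smul]
  calc ‖A u‖ ^ 2 ≤ (a * ‖u‖) ^ 2 := by gcongr; exact hA u
    _ = a ^ 2 * ‖u‖ ^ 2 := by ring

/-- Scalars depending on `z`. -/
theorem Good.smul {B c a : ℝ} {v : Z → E} (h : Good B c v) (g : Z → ℂ) (ha : 0 ≤ a)
    (hg : ∀ z, ‖g z‖ ≤ a) : Good B (a * c) (fun z => g z • v z) := by
  refine Good.congr (h.clause (J := Unit) (Φ := a ^ 2) (Θ := 1) (fun z _ => g z)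
    (fun _ => LinearMap.id) (fun z => ?_) (fun u => by simp) ha (by positivity) (by simp))
    fun z => by simp
  simp only [Finset.univ_unique, Finset.sum_const, Finset.card_singleton, one_smul]
  gcongr
  exact hg z

theorem Good.smul_one {B c : ℝ} {v : Z → E} (h : Good B c v) (g : Z → ℂ)
    (hg : ∀ z, ‖g z‖ ≤ 1) : Good B c (fun z => g z • v z) := by
  simpa using h.smul g zero_le_one hg

theorem Good.neg {B c : ℝ} {v : Z → E} (h : Good B c v) : Good B c (fun z => - v z) := by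
  refine (h.smul_one (fun _ => -1) (fun _ => by simp)).congr fun z => by simp

theorem Good.sub {B c c' : ℝ} {v v' : Z → E} (h : Good B c v) (h' : Good B c' v') :
    Good B (c + c') (fun z => v z - v' z) :=
  (h.add h'.neg).congr fun z => by rw [sub_eq_add_neg]

/-- Restriction to a set of `z`. -/
theorem Good.restrict {B c : ℝ} {v : Z → E} (h : Good B c v) (p : Z → Prop) [DecidablePred p] :
    Good B c (fun z => if p z then v z else 0) := by
  refine (h.smul_one (fun z => if p z then 1 else 0) (fun z => ?_)).congr fun z => ?_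
  · split <;> simp
  · split <;> simp

/-- Sums of fixed linear maps with coefficients depending on `z`. -/
theorem Good.comb {I : Type} [Fintype I] {B c : ℝ} {v : Z → E} (h : Good B c v)
    (g : Z → I → ℂ) (A : I → E →ₗ[ℂ] E') (a b : I → ℝ) (ha : ∀ i, 0 ≤ a i)
    (hb : ∀ i, 0 ≤ b i) (hg : ∀ z i, ‖g z i‖ ≤ a i) (hA : ∀ i u, ‖A i u‖ ≤ b i * ‖u‖) :
    Good B ((∑ i, a i * b i) * c) (fun z => ∑ i, g z i • A i (v z)) := by
  have := Good.sum (B := B) (c := fun i => a i * (b i * c)) (v := fun i z => g z i • A i (v z))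
    Finset.univ (fun i _ => (h.map (A i) (hb i) (hA i)).smul (fun z => g z i) (ha i)
      (fun z => hg z i))
  refine this.mono (le_of_eq ?_)
  rw [Finset.sum_mul]
  exact Finset.sum_congr rfl fun i _ => by ring

/-- The `ℓ²` norm of the near part of a good family. -/
theorem Good.near_N2 {B c : ℝ} {v : Z → E} (h : Good B c v) (P : Z → E →ₗ[ℂ] F) (hB : 0 ≤ B)
    (hP : ∀ u, ∑ z, ‖P z u‖ ^ 2 ≤ B * ‖u‖ ^ 2) (hP1 : ∀ z u, ‖P z u‖ ≤ ‖u‖) :
    N2 (fun z => P z (v z)) ≤ 2 * (Real.sqrt B * c) := by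
  have hc := h.nonneg
  obtain ⟨v1, v2, h0, h1, h2⟩ := h
  have e1 : N2 (fun z => P z (v1 z)) ≤ Real.sqrt B * c := by
    refine N2_le (mul_nonneg (Real.sqrt_nonneg _) hc) ?_
    rw [mul_pow, Real.sq_sqrt hB]
    exact h1.near P hB hP
  have e2 : N2 (fun z => P z (v2 z)) ≤ Real.sqrt B * c := by
    refine (N2_mono (w := v2) zero_le_one fun z => ?_).trans ?_
    · rw [one_mul]; exact hP1 z _
    · rw [one_mul]; exact h2
  have e3 : (fun z => P z (v z)) = fun z => P z (v1 z) + P z (v2 z) := by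
    funext z
    rw [h0 z, map_add]
  rw [e3]
  linarith [N2_add (fun z => P z (v1 z)) (fun z => P z (v2 z))]

/-- Operators which only see the near part. -/
theorem Good.nearop {B c W : ℝ} {v : Z → E} (h : Good B c v) (P : Z → E →ₗ[ℂ] F) (hB : 0 ≤ B)
    (hP : ∀ u, ∑ z, ‖P z u‖ ^ 2 ≤ B * ‖u‖ ^ 2) (hP1 : ∀ z u, ‖P z u‖ ≤ ‖u‖) (hW : 0 ≤ W)
    (N : Z → E → E') (hN : ∀ z u, ‖N z u‖ ≤ W * ‖P z u‖) :
    Good B (2 * W * c) (fun z => N z (v z)) := by
  refine Good.small (mul_nonneg (mul_nonneg zero_le_two hW) h.nonneg) ?_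
  calc N2 (fun z => N z (v z)) ≤ W * N2 (fun z => P z (v z)) :=
        N2_mono hW fun z => hN z _
    _ ≤ W * (2 * (Real.sqrt B * c)) :=
        mul_le_mul_of_nonneg_left (h.near_N2 P hB hP hP1) hW
    _ = Real.sqrt B * (2 * W * c) := by ring

/-- Markov: few `z` have a large near part. -/
theorem Good.markov {B c η : ℝ} {v : Z → E} (h : Good B c v) (P : Z → E →ₗ[ℂ] F) (hB : 0 ≤ B)
    (hP : ∀ u, ∑ z, ‖P z u‖ ^ 2 ≤ B * ‖u‖ ^ 2) (hP1 : ∀ z u, ‖P z u‖ ≤ ‖u‖) (hη : 0 < η)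
    (t : Finset Z) (ht : ∀ z ∈ t, η ≤ ‖P z (v z)‖) :
    (t.card : ℝ) ≤ 4 * B * c ^ 2 / η ^ 2 := by
  rw [le_div_iff₀ (by positivity)]
  calc (t.card : ℝ) * η ^ 2 = ∑ _z ∈ t, η ^ 2 := by simp
    _ ≤ ∑ z ∈ t, ‖P z (v z)‖ ^ 2 := Finset.sum_le_sum fun z hz => by
        gcongr
        exact ht z hz
    _ ≤ ∑ z, ‖P z (v z)‖ ^ 2 :=
        Finset.sum_le_sum_of_subset_of_nonneg (Finset.subset_univ _) fun _ _ _ => by positivity
    _ = N2 (fun z => P z (v z)) ^ 2 := (N2_sq _).symm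
    _ ≤ (2 * (Real.sqrt B * c)) ^ 2 := by
        have h1 := h.near_N2 P hB hP hP1
        have h2 := N2_nonneg (fun z => P z (v z))
        exact pow_le_pow_left₀ h2 h1 2
    _ = 4 * Real.sqrt B ^ 2 * c ^ 2 := by ring
    _ = 4 * B * c ^ 2 := by rw [Real.sq_sqrt hB]

/-- Iteration. -/
theorem Good.iterate {B K θ cp : ℝ} (hθ : 0 ≤ θ) (T : Z → E →ₗ[ℂ] E)
    (hT : ∀ (c : ℝ) (w : Z → E), Good B c w → Good B (K * c) (fun z => T z (w z)))
    (hTn : ∀ z u, ‖T z u‖ ≤ θ * ‖u‖) {v p : Z → E} (hp : Good B cp p)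
    (hv : ∀ z, v z = p z + T z (v z)) (hv1 : ∀ z, ‖v z‖ ≤ 1) (J : ℕ)
    (hJ : θ ^ J * Real.sqrt (Fintype.card Z) ≤ Real.sqrt B) :
    Good B (cp * (∑ i ∈ Finset.range J, K ^ i) + 1) v := by
  have hpow : ∀ i : ℕ, Good B (K ^ i * cp) (fun z => (T z ^ i) (p z)) := by
    intro i
    induction i with
    | zero => simpa using hp
    | succ i ih =>
      refine ((hT _ _ ih).mono (le_of_eq (by ring))).congr fun z => ?_
      rw [pow_succ', Module.End.mul_apply]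
  have hexp : ∀ J : ℕ, ∀ z, v z = (∑ i ∈ Finset.range J, (T z ^ i) (p z)) + (T z ^ J) (v z) := by
    intro J z
    induction J with
    | zero => simp
    | succ J ih =>
      have e : (T z ^ J) (v z) = (T z ^ J) (p z) + (T z ^ (J + 1)) (v z) := by
        conv_lhs => rw [hv z]
        rw [map_add, pow_succ, Module.End.mul_apply]
      rw [Finset.sum_range_succ, add_assoc, ← e]
      exact ih
  have hnorm : ∀ (i : ℕ) z u, ‖(T z ^ i) u‖ ≤ θ ^ i * ‖u‖ := by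
    intro i z
    induction i with
    | zero => intro u; simp
    | succ i ih =>
      intro u
      rw [pow_succ', Module.End.mul_apply]
      calc ‖T z ((T z ^ i) u)‖ ≤ θ * ‖(T z ^ i) u‖ := hTn z _
        _ ≤ θ * (θ ^ i * ‖u‖) := mul_le_mul_of_nonneg_left (ih u) hθ
        _ = θ ^ (i + 1) * ‖u‖ := by ring
  have h1 : Good B (∑ i ∈ Finset.range J, K ^ i * cp)
      (fun z => ∑ i ∈ Finset.range J, (T z ^ i) (p z)) :=
    Good.sum _ fun i _ => hpow i
  have h2 : Good B 1 (fun z => (T z ^ J) (v z)) := by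
    refine Good.small zero_le_one ?_
    rw [mul_one]
    refine (N2_le (mul_nonneg (pow_nonneg hθ J) (Real.sqrt_nonneg _)) ?_).trans hJ
    rw [mul_pow, Real.sq_sqrt (by positivity)]
    calc ∑ z, ‖(T z ^ J) (v z)‖ ^ 2 ≤ ∑ _z : Z, (θ ^ J) ^ 2 :=
          Finset.sum_le_sum fun z _ => by
            have h3 := hnorm J z (v z)
            have h4 : θ ^ J * ‖v z‖ ≤ θ ^ J :=
              mul_le_of_le_one_right (pow_nonneg hθ J) (hv1 z)
            exact pow_le_pow_left₀ (norm_nonneg _) (h3.trans h4) 2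
      _ = (θ ^ J) ^ 2 * Fintype.card Z := by simp [mul_comm]
  refine ((h1.add h2).mono (le_of_eq ?_)).congr fun z => hexp J z
  rw [Finset.mul_sum]
  congr 1
  exact Finset.sum_congr rfl fun i _ => by ring

end Pool.Agent.H27.AD
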