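import Mathlib
import Pool.Agent.H27.AD.Good

/-!
The master lemma: solutions of `(b D + s) v = u + X v` off the low-lying space of `D`.
-/

namespace Pool.Agent.H27.AD

open Finset

variable {Z I E : Type} [Fintype Z] [Fintype I] [DecidableEq I] [NormedAddCommGroup E]
  [InnerProductSpace ℂ E]

/-- A diagonal operator in an orthonormal basis. -/
noncomputable def diagOp (e : OrthonormalBasis I ℂ E) (r : I → ℝ) : E →ₗ[ℂ] E where
  toFun u := ∑ i, ((r i : ℂ) * e.repr u i) • e i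
  map_add' u v := by
    rw [← Finset.sum_add_distrib]
    refine Finset.sum_congr rfl fun i _ => ?_
    rw [map_add, PiLp.add_apply, mul_add, add_smul]
  map_smul' c u := by
    rw [RingHom.id_apply, Finset.smul_sum]
    refine Finset.sum_congr rfl fun i _ => ?_
    rw [map_smul, PiLp.smul_apply, smul_eq_mul, smul_smul]
    congr 1
    ring

omit [DecidableEq I] in
theorem diagOp_apply (e : OrthonormalBasis I ℂ E) (r : I → ℝ) (u : E) :
    diagOp e r u = ∑ i, ((r i : ℂ) * e.repr u i) • e i := rfl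

theorem diagOp_repr (e : OrthonormalBasis I ℂ E) (r : I → ℝ) (u : E) (i : I) :
    e.repr (diagOp e r u) i = (r i : ℂ) * e.repr u i := by
  rw [diagOp_apply, map_sum, WithLp.ofLp_sum, Finset.sum_apply, Finset.sum_eq_single i]
  · rw [map_smul, OrthonormalBasis.repr_self, PiLp.smul_apply, smul_eq_mul,
      EuclideanSpace.single_apply, if_pos rfl, mul_one]
  · intro j _ hj
    rw [map_smul, OrthonormalBasis.repr_self, PiLp.smul_apply, smul_eq_mul,
      EuclideanSpace.single_apply, if_neg (Ne.symm hj), mul_zero]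
  · intro h
    exact absurd (Finset.mem_univ i) h

omit [DecidableEq I] in
theorem norm_sq_repr (e : OrthonormalBasis I ℂ E) (u : E) : ‖u‖ ^ 2 = ∑ i, ‖e.repr u i‖ ^ 2 := by
  rw [← e.repr.norm_map u, EuclideanSpace.norm_sq_eq]

theorem diagOp_norm (e : OrthonormalBasis I ℂ E) (r : I → ℝ) {ρ : ℝ} (hρ : 0 ≤ ρ)
    (hr : ∀ i, |r i| ≤ ρ) (u : E) : ‖diagOp e r u‖ ≤ ρ * ‖u‖ := by
  refine (abs_le_of_sq_le_sq' ?_ (mul_nonneg hρ (norm_nonneg _))).2
  rw [norm_sq_repr e, mul_pow, norm_sq_repr e u, Finset.mul_sum]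
  refine Finset.sum_le_sum fun i _ => ?_
  rw [diagOp_repr, norm_mul, mul_pow, Complex.norm_real, Real.norm_eq_abs]
  gcongr
  exact hr i

theorem repr_apply_of_eig (e : OrthonormalBasis I ℂ E) (lam : I → ℝ) (D : E →ₗ[ℂ] E)
    (hD : ∀ i, D (e i) = (lam i : ℂ) • e i) (u : E) (i : I) :
    e.repr (D u) i = (lam i : ℂ) * e.repr u i := by
  have h : D u = diagOp e lam u := by
    conv_lhs => rw [← e.sum_repr u]
    rw [map_sum, diagOp_apply]
    refine Finset.sum_congr rfl fun j _ => ?_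
    rw [map_smul, hD, smul_smul, mul_comm]
  rw [h, diagOp_repr]

theorem master (e : OrthonormalBasis I ℂ E) (lam : I → ℝ) (D : E →ₗ[ℂ] E)
    (hD : ∀ i, D (e i) = (lam i : ℂ) • e i) {L : ℝ} (hL : 0 ≤ L) (hDn : ∀ u, ‖D u‖ ≤ L * ‖u‖)
    (Lo : Finset I) {r : ℝ} (hr : (Lo.card : ℝ) ≤ r) {bs ss γ : ℝ} (hγ : 0 < γ)
    (hlo : ∀ i ∉ Lo, γ ≤ bs * lam i + ss)
    {B K₀ σ cu : ℝ} (hσ : 0 ≤ σ) (X : Z → E →ₗ[ℂ] E)
    (hXg : ∀ (c : ℝ) (w : Z → E), Good B c w → Good B (K₀ * c) (fun z => X z (w z)))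
    (hXn : ∀ z u, ‖X z u‖ ≤ σ * ‖u‖) (b s : Z → ℝ)
    (hb : ∀ z, |bs - b z| * L ≤ σ) (hs : ∀ z, |ss - s z| ≤ σ)
    {v u : Z → E} (hv : ∀ z, ‖v z‖ ≤ 1) (hu : Good B cu u)
    (heq : ∀ z, (b z : ℂ) • D (v z) + (s z : ℂ) • v z = u z + X z (v z)) (J : ℕ)
    (hJ : (3 * σ / γ) ^ J * Real.sqrt (Fintype.card Z) ≤ Real.sqrt B) :
    Good B ((Real.sqrt r + cu / γ) * (∑ i ∈ Finset.range J, ((K₀ + 2 * σ) / γ) ^ i) + 1) v := by
  classical
  have hr0 : 0 ≤ r := le_trans (Nat.cast_nonneg _) hr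
  set ρ : I → ℝ := fun i => if i ∈ Lo then 0 else (bs * lam i + ss)⁻¹ with hρ
  have hρ1 : ∀ i, |ρ i| ≤ 1 / γ := by
    intro i
    rw [hρ]
    by_cases hi : i ∈ Lo
    · simp only [if_pos hi, abs_zero]; positivity
    · simp only [if_neg hi]
      have h1 := hlo i hi
      have h2 : 0 < bs * lam i + ss := lt_of_lt_of_le hγ h1
      rw [abs_of_pos (inv_pos.mpr h2), one_div]
      exact inv_anti₀ hγ h1
  set R := diagOp e ρ with hR
  have hRn : ∀ w, ‖R w‖ ≤ 1 / γ * ‖w‖ := diagOp_norm e ρ (by positivity) hρ1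
  set Q : Z → E →ₗ[ℂ] E := fun z => X z + ((bs - b z : ℝ) : ℂ) • D +
    ((ss - s z : ℝ) : ℂ) • LinearMap.id with hQ
  have hQa : ∀ z w, Q z w = X z w + ((bs - b z : ℝ) : ℂ) • D w + ((ss - s z : ℝ) : ℂ) • w := by
    intro z w
    rw [hQ]; rfl
  set T : Z → E →ₗ[ℂ] E := fun z => R ∘ₗ Q z with hT
  set p : Z → E := fun z => (∑ i : Lo, (e.repr (v z) i) • e (i : I)) + R (u z) with hp
  have hQg : ∀ (c : ℝ) (w : Z → E), Good B c w →
      Good B ((K₀ + 2 * σ) * c) (fun z => Q z (w z)) := by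
    intro c w hw
    have hc := hw.nonneg
    have h1 := hXg c w hw
    rcases eq_or_lt_of_le hL with hL0 | hL0
    · have hD0 : ∀ u, D u = 0 := by
        intro u
        have := hDn u
        rw [← hL0, zero_mul] at this
        exact norm_le_zero_iff.mp this
      have h3 := hw.smul (fun z => ((ss - s z : ℝ) : ℂ)) hσ (fun z => by
        rw [Complex.norm_real, Real.norm_eq_abs]; exact hs z)
      refine ((h1.add h3).mono ?_).congr fun z => ?_
      · nlinarith
      · rw [hQa, hD0, smul_zero, add_zero]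
    · have h2 := (hw.map D hL hDn).smul (a := σ / L) (fun z => ((bs - b z : ℝ) : ℂ))
        (div_nonneg hσ hL) (fun z => by
          rw [Complex.norm_real, Real.norm_eq_abs, le_div_iff₀ hL0]; exact hb z)
      have h3 := hw.smul (fun z => ((ss - s z : ℝ) : ℂ)) hσ (fun z => by
        rw [Complex.norm_real, Real.norm_eq_abs]; exact hs z)
      refine (((h1.add h2).add h3).mono (le_of_eq ?_)).congr fun z => ?_
      · field_simp
        ring
      · rw [hQa]
  have hQn : ∀ z w, ‖Q z w‖ ≤ 3 * σ * ‖w‖ := by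
    intro z w
    rw [hQa]
    have h1 := hXn z w
    have h2 : ‖((bs - b z : ℝ) : ℂ) • D w‖ ≤ σ * ‖w‖ := by
      rw [norm_smul, Complex.norm_real, Real.norm_eq_abs]
      calc |bs - b z| * ‖D w‖ ≤ |bs - b z| * (L * ‖w‖) :=
            mul_le_mul_of_nonneg_left (hDn w) (abs_nonneg _)
        _ = |bs - b z| * L * ‖w‖ := by ring
        _ ≤ σ * ‖w‖ := mul_le_mul_of_nonneg_right (hb z) (norm_nonneg _)
    have h3 : ‖((ss - s z : ℝ) : ℂ) • w‖ ≤ σ * ‖w‖ := by
      rw [norm_smul, Complex.norm_real, Real.norm_eq_abs]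
      exact mul_le_mul_of_nonneg_right (hs z) (norm_nonneg _)
    calc ‖X z w + ((bs - b z : ℝ) : ℂ) • D w + ((ss - s z : ℝ) : ℂ) • w‖
        ≤ ‖X z w‖ + ‖((bs - b z : ℝ) : ℂ) • D w‖ + ‖((ss - s z : ℝ) : ℂ) • w‖ := norm_add₃_le
      _ ≤ 3 * σ * ‖w‖ := by linarith
  have hTn : ∀ z w, ‖T z w‖ ≤ 3 * σ / γ * ‖w‖ := by
    intro z w
    calc ‖T z w‖ = ‖R (Q z w)‖ := rfl
      _ ≤ 1 / γ * ‖Q z w‖ := hRn _
      _ ≤ 1 / γ * (3 * σ * ‖w‖) := mul_le_mul_of_nonneg_left (hQn z w) (by positivity)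
      _ = 3 * σ / γ * ‖w‖ := by ring
  have hTg : ∀ (c : ℝ) (w : Z → E), Good B c w →
      Good B ((K₀ + 2 * σ) / γ * c) (fun z => T z (w z)) := by
    intro c w hw
    refine ((hQg c w hw).map R (by positivity) hRn).mono (le_of_eq ?_)
    ring
  have hpg : Good B (Real.sqrt r + cu / γ) p := by
    have h1 : Good B (Real.sqrt r) (fun z => ∑ i : Lo, (e.repr (v z) i) • e (i : I)) := by
      refine (Rep.span (fun i : Lo => e (i : I)) (fun z i => e.repr (v z) i) (fun i => ?_)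
        (fun z => ?_) (by simpa using hr)).good
      · rw [e.norm_eq_one]
      · calc ∑ i : Lo, ‖e.repr (v z) i‖ ^ 2 = ∑ i ∈ Lo, ‖e.repr (v z) i‖ ^ 2 :=
              Finset.sum_coe_sort Lo (fun i => ‖e.repr (v z) i‖ ^ 2)
          _ ≤ ∑ i, ‖e.repr (v z) i‖ ^ 2 :=
              Finset.sum_le_sum_of_subset_of_nonneg (Finset.subset_univ _)
                fun _ _ _ => by positivity
          _ = ‖v z‖ ^ 2 := (norm_sq_repr e _).symm
          _ ≤ 1 := by
              have h2 := hv z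
              have h3 := norm_nonneg (v z)
              nlinarith
    refine (h1.add (hu.map R (by positivity) hRn)).mono (le_of_eq ?_)
    ring
  have hveq : ∀ z, v z = p z + T z (v z) := by
    intro z
    apply e.repr.injective
    ext i
    have h1 : Q z (v z) + u z = (bs : ℂ) • D (v z) + (ss : ℂ) • v z := by
      rw [hQa]
      have h2 := heq z
      have h3 : X z (v z) = (b z : ℂ) • D (v z) + (s z : ℂ) • v z - u z := by
        rw [h2]; abel
      rw [h3]
      push_cast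
      module
    have h4 : p z + T z (v z) =
        (∑ i : Lo, (e.repr (v z) i) • e (i : I)) + R (Q z (v z) + u z) := by
      rw [map_add]
      show (∑ i : Lo, (e.repr (v z) i) • e (i : I)) + R (u z) + R (Q z (v z)) = _
      abel
    rw [h4, h1]
    have h5 : (∑ i : Lo, (e.repr (v z) i) • e (i : I)) =
        diagOp e (fun i => if i ∈ Lo then 1 else 0) (v z) := by
      rw [diagOp_apply, Finset.sum_coe_sort Lo (fun i => (e.repr (v z) i) • e i)]
      rw [← Finset.sum_filter_add_sum_filter_not Finset.univ (fun i => i ∈ Lo)]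
      have h6 : ∑ i ∈ Finset.univ.filter (fun i => ¬ i ∈ Lo),
          ((((if i ∈ Lo then (1 : ℝ) else 0) : ℝ) : ℂ) * e.repr (v z) i) • e i = 0 := by
        refine Finset.sum_eq_zero fun i hi => ?_
        rw [if_neg (Finset.mem_filter.mp hi).2]
        simp
      rw [h6, add_zero]
      have h7 : Finset.univ.filter (fun i => i ∈ Lo) = Lo := by ext; simp
      rw [h7]
      refine Finset.sum_congr rfl fun i hi => ?_
      rw [if_pos hi]
      simp
    rw [h5, map_add, PiLp.add_apply, diagOp_repr, hR, diagOp_repr, map_add, PiLp.add_apply,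
      map_smul, map_smul, PiLp.smul_apply, PiLp.smul_apply, repr_apply_of_eig e lam D hD,
      smul_eq_mul, smul_eq_mul]
    by_cases hi : i ∈ Lo
    · simp [hρ, hi]
    · have h8 : (0 : ℝ) < bs * lam i + ss := lt_of_lt_of_le hγ (hlo i hi)
      have h9 : ((bs : ℂ) * (lam i : ℂ) + (ss : ℂ)) ≠ 0 := by
        exact_mod_cast h8.ne'
      simp only [hρ, hi, if_false]
      push_cast
      field_simp
      ring
  exact Good.iterate (by positivity) T hTg hTn hpg hveq hv J hJ

end Pool.Agent.H27.AD
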