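import Pool.Agent.H73.AD.Stmt
import Pool.Agent.H73.QA.Num

/-! Drivers which are diagonal in the Hadamard basis are admissible; polynomials in the total
transverse field. -/

namespace Pool.Agent.H73.AD

open Finset Matrix Pool.Agent.H73.QA

section count

/-- `star v ⬝ᵥ v` is the squared norm -/
theorem star_dot_self {X : Type} [Fintype X] (v : X → ℂ) : star v ⬝ᵥ v = ((nsq v : ℝ) : ℂ) := by
  unfold nsq dotProduct
  rw [Complex.ofReal_sum]
  refine sum_congr rfl fun x _ => ?_
  rw [Pi.star_apply, Complex.star_def, ← Complex.normSq_eq_conj_mul_self, Complex.normSq_eq_norm_sq]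

variable {X : Type} [Fintype X] [DecidableEq X]

/-- If `κ |v|^2 ≤ <v, A v>` for all `v` orthogonal to the vectors `w j`, then at most as many
eigenvalues of `A` are smaller than `κ`. -/
theorem count_low {A : Matrix X X ℂ} (hA : A.IsHermitian) {κ : ℝ} {J : Type} [Fintype J]
    (w : J → X → ℂ) (h : ∀ v : X → ℂ, (∀ j, w j ⬝ᵥ v = 0) → κ * nsq v ≤ (star v ⬝ᵥ A *ᵥ v).re) :
    (univ.filter fun i => hA.eigenvalues i < κ).card ≤ Fintype.card J := by
  classical
  by_contra hc
  rw [not_le] at hc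
  obtain ⟨L, hL⟩ : ∃ L : Finset X, L = univ.filter fun i => hA.eigenvalues i < κ := ⟨_, rfl⟩
  rw [← hL] at hc
  have hLm : ∀ i ∈ L, hA.eigenvalues i < κ := by
    intro i hi
    rw [hL, mem_filter] at hi
    exact hi.2
  -- the eigenvectors
  obtain ⟨e, he⟩ : ∃ e : X → X → ℂ, e = fun i => ⇑(hA.eigenvectorBasis i) := ⟨_, rfl⟩
  have he1 : ∀ i, A *ᵥ e i = (hA.eigenvalues i : ℂ) • e i := by
    intro i
    rw [he]
    exact hA.mulVec_eigenvectorBasis i
  have he2 : ∀ i j, star (e i) ⬝ᵥ e j = if i = j then 1 else 0 := by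
    intro i j
    have h1 := orthonormal_iff_ite.1 hA.eigenvectorBasis.orthonormal i j
    rw [← h1, he]
    simp only [EuclideanSpace.inner_eq_star_dotProduct]
    rw [dotProduct_comm]
  let F : (L → ℂ) →ₗ[ℂ] (J → ℂ) :=
    { toFun := fun c j => w j ⬝ᵥ ∑ i : L, c i • e i
      map_add' := by
        intro c d
        funext j
        rw [Pi.add_apply, ← dotProduct_add, ← sum_add_distrib]
        congr 1
        refine sum_congr rfl fun i _ => ?_
        rw [Pi.add_apply, add_smul]
      map_smul' := by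
        intro a c
        funext j
        rw [RingHom.id_apply, Pi.smul_apply, ← dotProduct_smul, smul_sum]
        congr 1
        refine sum_congr rfl fun i _ => ?_
        rw [Pi.smul_apply, smul_eq_mul, mul_smul] }
  have h1 : LinearMap.ker F ≠ ⊥ := by
    refine LinearMap.ker_ne_bot_of_finrank_lt ?_
    rw [Module.finrank_fintype_fun_eq_card, Module.finrank_fintype_fun_eq_card, Fintype.card_coe]
    exact hc
  obtain ⟨c, hc1, hc2⟩ := (Submodule.ne_bot_iff _).1 h1
  rw [LinearMap.mem_ker] at hc1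
  have h2 := h (∑ i : L, c i • e i) fun j => congrFun hc1 j
  -- compute both sides
  have h3 : ∀ d : L → ℂ, star (∑ i : L, c i • e i) ⬝ᵥ (∑ i : L, d i • e i) =
      ∑ i : L, star (c i) * d i := by
    intro d
    rw [star_sum, sum_dotProduct]
    refine sum_congr rfl fun i _ => ?_
    rw [dotProduct_sum, sum_eq_single i]
    · rw [star_smul, smul_dotProduct, dotProduct_smul, he2, if_pos rfl, smul_eq_mul, smul_eq_mul,
        mul_one]
    · intro j _ hj
      rw [star_smul, smul_dotProduct, dotProduct_smul, he2, if_neg fun h => hj (Subtype.ext h.symm),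
        smul_zero, smul_zero]
    · intro h
      exact absurd (mem_univ i) h
  have h4 : A *ᵥ (∑ i : L, c i • e i) = ∑ i : L, (c i * (hA.eigenvalues i : ℂ)) • e i := by
    rw [mulVec_sum]
    refine sum_congr rfl fun i _ => ?_
    rw [mulVec_smul, he1, smul_smul]
  have h5 : (star (∑ i : L, c i • e i) ⬝ᵥ A *ᵥ (∑ i : L, c i • e i)).re =
      ∑ i : L, hA.eigenvalues i * ‖c i‖ ^ 2 := by
    rw [h4, h3, Complex.re_sum]
    refine sum_congr rfl fun i _ => ?_
    rw [← mul_assoc, Complex.star_def, ← Complex.normSq_eq_conj_mul_self, ← Complex.ofReal_mul,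
      Complex.ofReal_re, Complex.normSq_eq_norm_sq, mul_comm]
  have h6 : nsq (∑ i : L, c i • e i) = ∑ i : L, ‖c i‖ ^ 2 := by
    have h7 : ((nsq (∑ i : L, c i • e i) : ℝ) : ℂ) = ((∑ i : L, ‖c i‖ ^ 2 : ℝ) : ℂ) := by
      rw [← star_dot_self, h3, Complex.ofReal_sum]
      refine sum_congr rfl fun i _ => ?_
      rw [Complex.star_def, ← Complex.normSq_eq_conj_mul_self, Complex.normSq_eq_norm_sq]
    exact_mod_cast h7
  rw [h5, h6, mul_sum] at h2
  obtain ⟨i, hi⟩ : ∃ i, c i ≠ 0 := by
    by_contra hcon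
    push Not at hcon
    exact hc2 (funext hcon)
  refine absurd h2 (not_le.2 (sum_lt_sum (fun i _ => ?_) ⟨i, mem_univ _, ?_⟩))
  · exact mul_le_mul_of_nonneg_right (hLm _ i.2).le (sq_nonneg _)
  · have h7 : 0 < ‖c i‖ := norm_pos_iff.2 hi
    exact mul_lt_mul_of_pos_right (hLm _ i.2) (by positivity)

end count

section hchi

variable {n : ℕ}

/-- the sign of a bit -/
noncomputable def hsgn (b : Bool) : ℂ := if b then -1 else 1

theorem hsgn_not (b : Bool) : hsgn (!b) = -hsgn b := by
  cases b <;> simp [hsgn]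

theorem hsgn_sq (b : Bool) : hsgn b * hsgn b = 1 := by
  cases b <;> simp [hsgn]

theorem hsgn_mul_ne {a b : Bool} (h : a ≠ b) : hsgn a * hsgn b = -1 := by
  cases a <;> cases b <;> simp_all [hsgn]

theorem hsgn_star (b : Bool) : star (hsgn b) = hsgn b := by
  cases b <;> simp [hsgn]

/-- the Hadamard vector of the set `T` (not normalised) -/
noncomputable def hchi (T : Finset (Fin n)) : Cube n × Unit → ℂ := fun x => ∏ i ∈ T, hsgn (x.1 i)

theorem hchi_star (T : Finset (Fin n)) : star (hchi T) = hchi T := by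
  funext x
  unfold hchi
  rw [Pi.star_apply, star_prod]
  exact prod_congr rfl fun i _ => hsgn_star _

theorem hchi_norm (T : Finset (Fin n)) (x : Cube n × Unit) : ‖hchi T x‖ = 1 := by
  unfold hchi
  rw [norm_prod]
  refine prod_eq_one fun i _ => ?_
  cases x.1 i <;> simp [hsgn]

theorem hchi_empty (x : Cube n × Unit) : hchi (∅ : Finset (Fin n)) x = 1 := by
  simp [hchi]

/-- dual orthogonality -/
theorem hchi_dual (x y : Cube n × Unit) :
    ∑ T : Finset (Fin n), hchi T x * hchi T y = if x = y then (2 : ℂ) ^ n else 0 := by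
  have h1 : ∑ T : Finset (Fin n), hchi T x * hchi T y = ∏ i : Fin n, (1 + hsgn (x.1 i) * hsgn (y.1 i)) := by
    rw [Finset.prod_one_add, powerset_univ]
    refine sum_congr rfl fun T _ => ?_
    unfold hchi
    rw [← prod_mul_distrib]
  rw [h1]
  split_ifs with h
  · subst h
    rw [prod_congr rfl fun i _ => by rw [hsgn_sq], prod_const, card_univ, Fintype.card_fin]
    norm_num
  · have h2 : x.1 ≠ y.1 := fun h2 => h (Prod.ext h2 rfl)
    obtain ⟨i, hi⟩ := Function.ne_iff.1 h2
    refine prod_eq_zero (mem_univ i) ?_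
    rw [hsgn_mul_ne hi]
    norm_num

/-- inversion -/
theorem hchi_inv (w : Cube n × Unit → ℂ) :
    ∑ T : Finset (Fin n), (hchi T ⬝ᵥ w) • hchi T = (2 : ℂ) ^ n • w := by
  funext y
  rw [Finset.sum_apply]
  simp only [Pi.smul_apply, smul_eq_mul, dotProduct, sum_mul]
  rw [sum_comm]
  calc ∑ x, ∑ T : Finset (Fin n), hchi T x * w x * hchi T y = ∑ x, w x * (if x = y then (2 : ℂ) ^ n else 0) := by
        refine sum_congr rfl fun x _ => ?_
        rw [← hchi_dual x y, mul_sum]
        refine sum_congr rfl fun T _ => ?_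
        ring
    _ = (2 : ℂ) ^ n * w y := by
        rw [sum_eq_single y]
        · rw [if_pos rfl, mul_comm]
        · intro x _ hx
          rw [if_neg hx, mul_zero]
        · intro h
          exact absurd (mem_univ y) h

theorem two_pow_smul {w : Cube n × Unit → ℂ} : (2 : ℂ) ^ n • w = (((2 : ℝ) ^ n : ℝ) : ℂ) • w := by
  push_cast
  rfl

/-- energies of a matrix that is diagonal in the Hadamard basis -/
theorem henergy {A : Op n Unit} {φ : Finset (Fin n) → ℝ}
    (hA : ∀ T, A *ᵥ hchi T = (φ T : ℂ) • hchi T) (w : Cube n × Unit → ℂ) :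
    (2 : ℝ) ^ n * (star w ⬝ᵥ A *ᵥ w).re = ∑ T, φ T * ‖hchi T ⬝ᵥ w‖ ^ 2 := by
  have h1 : (((2 : ℝ) ^ n : ℝ) : ℂ) * (star w ⬝ᵥ A *ᵥ w) =
      ((∑ T, φ T * ‖hchi T ⬝ᵥ w‖ ^ 2 : ℝ) : ℂ) := by
    rw [← smul_eq_mul, ← dotProduct_smul, ← mulVec_smul, ← two_pow_smul, ← hchi_inv w, mulVec_sum,
      dotProduct_sum, Complex.ofReal_sum]
    refine sum_congr rfl fun T _ => ?_
    rw [mulVec_smul, hA, dotProduct_smul, dotProduct_smul, smul_eq_mul, smul_eq_mul]
    have h2 : star w ⬝ᵥ hchi T = star (hchi T ⬝ᵥ w) := by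
      rw [star_dotProduct, hchi_star]
    rw [h2, Complex.star_def, Complex.ofReal_mul, Complex.ofReal_pow, ← Complex.mul_conj']
    ring
  rw [← Complex.re_ofReal_mul, h1, Complex.ofReal_re]

theorem hparseval (w : Cube n × Unit → ℂ) :
    (2 : ℝ) ^ n * nsq w = ∑ T : Finset (Fin n), ‖hchi T ⬝ᵥ w‖ ^ 2 := by
  have h1 := henergy (A := (1 : Op n Unit)) (φ := fun _ => 1) (fun T => by
    rw [one_mulVec, Complex.ofReal_one, one_smul]) w
  rw [one_mulVec, star_dot_self, Complex.ofReal_re] at h1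
  rw [h1]
  exact sum_congr rfl fun T _ => one_mul _

theorem hchi_mulVec {A : Op n Unit} (hA : A.IsHermitian) {φ : Finset (Fin n) → ℝ}
    (h : ∀ T, A *ᵥ hchi T = (φ T : ℂ) • hchi T) (T : Finset (Fin n)) (w : Cube n × Unit → ℂ) :
    hchi T ⬝ᵥ A *ᵥ w = (φ T : ℂ) * (hchi T ⬝ᵥ w) := by
  have h1 : hchi T ⬝ᵥ A *ᵥ w = star (A *ᵥ hchi T) ⬝ᵥ w := by
    rw [star_mulVec, hA.eq, hchi_star, dotProduct_mulVec]
  rw [h1, h, star_smul, hchi_star, smul_dotProduct, smul_eq_mul, Complex.star_def,
    Complex.conj_ofReal]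

theorem xdiag_bdd {A : Op n Unit} (hA : A.IsHermitian) {φ : Finset (Fin n) → ℝ}
    (h : ∀ T, A *ᵥ hchi T = (φ T : ℂ) • hchi T) {a : ℝ} (ha : ∀ T, |φ T| ≤ a) : Bdd A a := by
  intro w
  have h2 : (0 : ℝ) < 2 ^ n := by positivity
  refine le_of_mul_le_mul_left ?_ h2
  rw [hparseval, mul_left_comm, hparseval, mul_sum]
  refine sum_le_sum fun T _ => ?_
  rw [hchi_mulVec hA h, norm_mul, mul_pow]
  refine mul_le_mul_of_nonneg_right ?_ (sq_nonneg _)
  rw [Complex.norm_real, Real.norm_eq_abs]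
  exact pow_le_pow_left₀ (abs_nonneg _) (ha T) 2

/-- matrices that are diagonal in the Hadamard basis are admissible drivers, whatever `z` is -/
theorem xdiag_adm {p : ℕ} {A : Op n Unit} (hA : A.IsHermitian) {φ : Finset (Fin n) → ℝ}
    (h : ∀ T, A *ᵥ hchi T = (φ T : ℂ) • hchi T) (h0 : ∀ T, 0 ≤ φ T) {T₀ : Finset (Fin n)}
    (he : φ T₀ = 0)
    (hs : ∑ T, φ T ≤ 2 ^ n) {α κ Λ : ℝ}
    (hl : ((univ.filter fun T => φ T < κ).card : ℝ) ≤ 2 ^ (α * n))
    {a : Fin p → ℝ} (ha : ∑ i, |a i| ≤ Λ) (z : Cube n) : Adm α κ Λ a A z := by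
  have h2 : (0 : ℝ) < 2 ^ n := by positivity
  refine ⟨ha, hA, fun v => ?_, ?_, ?_, ?_⟩
  · refine le_of_mul_le_mul_left ?_ h2
    rw [mul_zero, henergy h]
    exact sum_nonneg fun T _ => mul_nonneg (h0 T) (sq_nonneg _)
  · refine ⟨hchi T₀, fun h3 => ?_, ?_⟩
    · have := hchi_norm T₀ (z, ())
      rw [h3, Pi.zero_apply, norm_zero] at this
      exact zero_ne_one this
    · rw [h, he, Complex.ofReal_zero, zero_smul]
  · refine ⟨fun _ => 1, ?_, ?_⟩
    · simp [nsq]
    · refine le_of_mul_le_mul_left ?_ h2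
      rw [henergy h, mul_one]
      have h3 : ∀ T : Finset (Fin n), hchi T ⬝ᵥ ket z (fun _ : Unit => (1 : ℂ)) = hchi T (z, ()) := by
        intro T
        unfold dotProduct ket
        rw [sum_eq_single (z, ())]
        · simp
        · intro x _ hx
          rw [if_neg fun h4 => hx (Prod.ext h4 rfl), mul_zero]
        · intro h
          exact absurd (mem_univ _) h
      refine le_trans (le_of_eq ?_) hs
      refine sum_congr rfl fun T _ => ?_
      rw [h3, hchi_norm, one_pow, mul_one]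
  · refine le_trans ?_ hl
    have h3 := count_low hA (κ := κ) (J := {T : Finset (Fin n) // T ∈ univ.filter fun T => φ T < κ})
      (fun T => hchi T.1) (fun v hv => by
        refine le_of_mul_le_mul_left ?_ h2
        rw [henergy h, mul_left_comm, hparseval, mul_sum]
        refine sum_le_sum fun T _ => ?_
        by_cases hT : φ T < κ
        · have h4 := hv ⟨T, mem_filter.2 ⟨mem_univ _, hT⟩⟩
          simp only at h4
          rw [h4, norm_zero]
          norm_num
        · exact mul_le_mul_of_nonneg_right (not_lt.1 hT) (sq_nonneg _))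
    rw [Fintype.card_coe] at h3
    exact_mod_cast h3

end hchi

section field

variable {n : ℕ}

/-- The normalised total transverse field `(X_1 + ... + X_n) / n` (no ancilla). -/
noncomputable def field (n : ℕ) : Op n Unit :=
  fun x y => if (diff x.1 y.1).card = 1 then ((1 / n : ℝ) : ℂ) else 0

theorem diff_comm' (x y : Cube n) : diff x y = diff y x := by
  unfold diff
  exact filter_congr fun i _ => ne_comm

theorem field_herm (n : ℕ) : (field n).IsHermitian := by
  ext x y
  rw [conjTranspose_apply]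
  unfold field
  rw [diff_comm' y.1 x.1]
  split_ifs
  · rw [Complex.star_def, Complex.conj_ofReal]
  · rw [star_zero]

/-- flip one bit -/
def hflip (x : Cube n) (i : Fin n) : Cube n := Function.update x i (!x i)

theorem diff_hflip (x : Cube n) (i : Fin n) : diff x (hflip x i) = {i} := by
  ext j
  simp only [diff, hflip, mem_filter, mem_univ, true_and, mem_singleton]
  by_cases hj : j = i
  · subst hj
    simp
  · simp [hj]

theorem eq_hflip {x y : Cube n} {i : Fin n} (h : diff x y = {i}) : y = hflip x i := by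
  funext j
  by_cases hj : j = i
  · subst hj
    have h1 : j ∈ diff x y := by rw [h]; exact mem_singleton_self j
    simp only [diff, mem_filter, mem_univ, true_and] at h1
    unfold hflip
    rw [Function.update_self]
    revert h1
    cases x j <;> cases y j <;> simp
  · have h1 : j ∉ diff x y := by rw [h, mem_singleton]; exact hj
    simp only [diff, mem_filter, mem_univ, true_and, not_not] at h1
    unfold hflip
    rw [Function.update_of_ne hj, h1]

theorem hchi_hflip (T : Finset (Fin n)) (x : Cube n) (i : Fin n) :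
    hchi T (hflip x i, ()) = (if i ∈ T then -1 else 1) * hchi T (x, ()) := by
  unfold hchi
  have h1 : ∀ j ∈ T, hsgn (hflip x i j) = (if j = i then -1 else 1) * hsgn (x j) := by
    intro j _
    unfold hflip
    by_cases hj : j = i
    · subst hj
      rw [Function.update_self, hsgn_not, if_pos rfl, neg_one_mul]
    · rw [Function.update_of_ne hj, if_neg hj, one_mul]
  calc ∏ j ∈ T, hsgn (hflip x i j) = ∏ j ∈ T, (if j = i then -1 else 1) * hsgn (x j) :=
        prod_congr rfl h1
    _ = (∏ j ∈ T, if j = i then (-1 : ℂ) else 1) * ∏ j ∈ T, hsgn (x j) := prod_mul_distrib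
    _ = _ := by rw [prod_ite_eq' T i]

/-- the eigenvalue of the field on the Hadamard vector `T` -/
noncomputable def lev (T : Finset (Fin n)) : ℝ := 1 - 2 * T.card / n

theorem field_hchi (hn : 0 < n) (T : Finset (Fin n)) : field n *ᵥ hchi T = (lev T : ℂ) • hchi T := by
  funext x
  obtain ⟨x, ⟨⟩⟩ := x
  rw [Pi.smul_apply, smul_eq_mul]
  unfold mulVec dotProduct
  have h1 : ∑ y : Cube n × Unit, field n (x, ()) y * hchi T y =
      ∑ i : Fin n, ((1 / n : ℝ) : ℂ) * hchi T (hflip x i, ()) := by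
    rw [Fintype.sum_prod_type]
    simp only [univ_unique, sum_singleton, PUnit.default_eq_unit]
    have hinj : Function.Injective (hflip x) := by
      intro i j hij
      have h2 := diff_hflip x i
      rw [hij, diff_hflip x j] at h2
      exact (singleton_injective h2).symm
    have h2 : ∑ i : Fin n, ((1 / n : ℝ) : ℂ) * hchi T (hflip x i, ()) =
        ∑ y ∈ univ.image (hflip x), ((1 / n : ℝ) : ℂ) * hchi T (y, ()) := by
      rw [sum_image fun i _ j _ h => hinj h]
    rw [h2]
    symm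
    refine (sum_subset_zero_on_sdiff (subset_univ _) (fun y hy => ?_) (fun y hy => ?_))
    · have h3 : ¬ (diff x y).card = 1 := by
        intro h3
        obtain ⟨i, hi⟩ := card_eq_one.1 h3
        rw [mem_sdiff] at hy
        exact hy.2 (mem_image.2 ⟨i, mem_univ _, (eq_hflip hi).symm⟩)
      unfold field
      simp only
      rw [if_neg h3, zero_mul]
    · obtain ⟨i, _, hi⟩ := mem_image.1 hy
      have h3 : (diff x y).card = 1 := by
        rw [← hi, diff_hflip, card_singleton]
      unfold field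
      simp only
      rw [if_pos h3]
  rw [h1, ← mul_sum]
  have h2 : ∑ i : Fin n, hchi T (hflip x i, ()) = ((n : ℂ) - 2 * T.card) * hchi T (x, ()) := by
    rw [sum_congr rfl fun i _ => hchi_hflip T x i, ← sum_mul]
    congr 1
    have h3 : ∀ i : Fin n, (if i ∈ T then (-1 : ℂ) else 1) = 1 - 2 * (if i ∈ T then 1 else 0) := by
      intro i
      split_ifs <;> norm_num
    rw [sum_congr rfl fun i _ => h3 i, sum_sub_distrib, ← mul_sum, sum_ite_mem, univ_inter]
    simp
  rw [h2, ← mul_assoc]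
  congr 1
  unfold lev
  have hn' : (n : ℂ) ≠ 0 := by exact_mod_cast hn.ne'
  push_cast
  field_simp

theorem field_pow_hchi (hn : 0 < n) (T : Finset (Fin n)) (i : ℕ) :
    field n ^ i *ᵥ hchi T = ((lev T ^ i : ℝ) : ℂ) • hchi T := by
  induction i with
  | zero => rw [pow_zero, one_mulVec, pow_zero, Complex.ofReal_one, one_smul]
  | succ i ih =>
    rw [pow_succ', ← mulVec_mulVec, ih, mulVec_smul, field_hchi hn, smul_smul, ← Complex.ofReal_mul,
      pow_succ]

theorem lev_mem (T : Finset (Fin n)) : lev T ∈ Set.Icc (-1 : ℝ) 1 := by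
  have h1 : (T.card : ℝ) ≤ n := by
    have := card_le_univ T
    rw [Fintype.card_fin] at this
    exact_mod_cast this
  have h0 : (0 : ℝ) ≤ T.card := Nat.cast_nonneg _
  unfold lev
  rcases Nat.eq_zero_or_pos n with hn | hn
  · subst hn
    simp
  · have hn' : (0 : ℝ) < n := by exact_mod_cast hn
    have h2 : 2 * (T.card : ℝ) / n ≤ 2 := by
      rw [div_le_iff₀ hn']
      linarith
    have h3 : 0 ≤ 2 * (T.card : ℝ) / n := by positivity
    constructor <;> linarith

theorem field_bdd (n i : ℕ) (hn : 0 < n) : Bdd (field n ^ i) 1 := by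
  refine xdiag_bdd ((field_herm n).pow i) (φ := fun T => lev T ^ i)
    (fun T => field_pow_hchi hn T i) fun T => ?_
  rw [abs_pow]
  exact pow_le_one₀ (abs_nonneg _) (abs_le.2 (lev_mem T))

/-- If the polynomial `P = ∑ a_i X ^ i` maps `[-1, 1]` to `[0, 1]`, `P 1 = 0` and `P ≥ κ` on
`[-1, 1 - ξ]`, then the driver `P (field n)` is admissible; `ξ` depends only on `α`. -/
theorem poly_adm {α : ℝ} (hα : 0 < α) : ∃ ξ : ℝ, 0 < ξ ∧ ∀ (n p : ℕ) (a : Fin p → ℝ) (κ Λ : ℝ)
    (z : Cube n), 0 < n → ∑ i, |a i| ≤ Λ →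
    (∀ x ∈ Set.Icc (-1 : ℝ) 1, 0 ≤ ∑ i, a i * x ^ (i : ℕ) ∧ ∑ i, a i * x ^ (i : ℕ) ≤ 1) →
    ∑ i, a i = 0 → (∀ x ∈ Set.Icc (-1 : ℝ) (1 - ξ), κ ≤ ∑ i, a i * x ^ (i : ℕ)) →
    Adm α κ Λ a (∑ i, (a i : ℂ) • field n ^ (i : ℕ)) z := by
  obtain ⟨ε, hε0, hε1, hε⟩ := ball hα
  refine ⟨2 * ε, by linarith, fun n p a κ Λ z hn ha hP hP1 hPκ => ?_⟩
  have hn' : (0 : ℝ) < n := by exact_mod_cast hn
  have h1 : ∀ T : Finset (Fin n), (∑ i, (a i : ℂ) • field n ^ (i : ℕ)) *ᵥ hchi T =
      ((∑ i, a i * lev T ^ (i : ℕ) : ℝ) : ℂ) • hchi T := by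
    intro T
    rw [sum_mulVec, Complex.ofReal_sum, sum_smul]
    refine sum_congr rfl fun i _ => ?_
    rw [smul_mulVec, field_pow_hchi hn, smul_smul, Complex.ofReal_mul]
  have h2 : (∑ i, (a i : ℂ) • field n ^ (i : ℕ)).IsHermitian := by
    unfold Matrix.IsHermitian
    rw [conjTranspose_sum]
    refine sum_congr rfl fun i _ => ?_
    rw [conjTranspose_smul, Complex.star_def, Complex.conj_ofReal, ((field_herm n).pow i).eq]
  refine xdiag_adm h2 h1 (fun T => (hP _ (lev_mem T)).1) (T₀ := ∅) ?_ ?_ ?_ ha z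
  · have h3 : lev (∅ : Finset (Fin n)) = 1 := by simp [lev]
    simp only [h3, one_pow, mul_one]
    exact hP1
  · calc ∑ T : Finset (Fin n), ∑ i, a i * lev T ^ (i : ℕ) ≤ ∑ _T : Finset (Fin n), (1 : ℝ) :=
          sum_le_sum fun T _ => (hP _ (lev_mem T)).2
      _ = 2 ^ n := by
          rw [sum_const, card_univ, Fintype.card_finset, Fintype.card_fin, nsmul_eq_mul, mul_one]
          norm_num
  · refine le_trans ?_ (hε n)
    have h3 : (univ.filter fun T : Finset (Fin n) => ∑ i, a i * lev T ^ (i : ℕ) < κ) ⊆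
        univ.filter fun T : Finset (Fin n) => (T.card : ℝ) ≤ ε * n := by
      intro T hT
      rw [mem_filter] at hT ⊢
      refine ⟨mem_univ _, ?_⟩
      by_contra hcon
      rw [not_le] at hcon
      refine absurd (hPκ (lev T) ⟨(lev_mem T).1, ?_⟩) (not_le.2 hT.2)
      unfold lev
      have h4 : 2 * ε ≤ 2 * (T.card : ℝ) / n := by
        rw [le_div_iff₀ hn']
        linarith
      linarith
    exact_mod_cast card_le_card h3

end field

end Pool.Agent.H73.AD
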