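import Pool.Agent.H27.AD.Poly

/-! Drivers which are diagonal in the Hadamard basis are admissible for every `z`.

Examples: `φ S = 2 |S| / n` is the transverse field `1 - (X_1 + ... + X_n) / n`, and
`φ S = c (1 - x) - d (1 - x ^ 2)`, `x = 1 - 2 |S| / n`, is a transverse field with an XX
interaction of all pairs. -/

namespace Pool.Agent.H73.AD

open Finset Matrix Pool.Agent.H73.QA

variable {n : ℕ}

/-- The operator with the eigenvalue `φ S` on the Hadamard vector of `S`. -/
noncomputable def xdiag (φ : Finset (Fin n) → ℝ) : Op n Unit :=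
  fun x y => ((1 / 2 ^ n * ∑ S, φ S * (-1) ^ (S ∩ diff x.1 y.1).card : ℝ) : ℂ)

theorem hsgn_mul (a b : Bool) : hsgn a * hsgn b = if a = b then 1 else -1 := by
  cases a <;> cases b <;> simp [hsgn]

/-- the kernel of the character `S` -/
theorem hchi_mul (S : Finset (Fin n)) (x y : Cube n × Unit) :
    (((-1 : ℝ) ^ (S ∩ diff x.1 y.1).card : ℝ) : ℂ) = hchi S x * hchi S y := by
  unfold hchi
  rw [← prod_mul_distrib, prod_congr rfl fun i _ => hsgn_mul (x.1 i) (y.1 i), prod_ite, prod_const_one,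
    one_mul, prod_const]
  push_cast
  congr 2
  ext i
  simp [diff]

/-- orthogonality -/
theorem hchi_ortho (S T : Finset (Fin n)) : hchi S ⬝ᵥ hchi T = if S = T then (2 : ℂ) ^ n else 0 := by
  have h1 : hchi S ⬝ᵥ hchi T =
      ∏ i : Fin n, ∑ b : Bool, (if i ∈ S then hsgn b else 1) * (if i ∈ T then hsgn b else 1) := by
    rw [Finset.prod_univ_sum, Fintype.piFinset_univ]
    unfold dotProduct
    rw [Fintype.sum_prod_type]
    simp only [univ_unique, sum_singleton]
    refine sum_congr rfl fun x _ => ?_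
    rw [prod_mul_distrib]
    unfold hchi
    congr 1
    · rw [prod_ite_mem, univ_inter]
    · rw [prod_ite_mem, univ_inter]
  rw [h1]
  split_ifs with h
  · subst h
    have h2 : ∀ i : Fin n, (∑ b : Bool, (if i ∈ S then hsgn b else 1) * (if i ∈ S then hsgn b else 1)) =
        (2 : ℂ) := by
      intro i
      by_cases hi : i ∈ S
      · simp only [hi, if_true, hsgn_sq]
        norm_num
      · simp only [hi, if_false]
        norm_num
    rw [prod_congr rfl fun i _ => h2 i, prod_const, card_univ, Fintype.card_fin]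
  · obtain ⟨i, hi⟩ : ∃ i, ¬ (i ∈ S ↔ i ∈ T) := by
      by_contra hc
      push Not at hc
      exact h (Finset.ext hc)
    refine prod_eq_zero (mem_univ i) ?_
    rw [Fintype.sum_bool]
    by_cases h3 : i ∈ S <;> by_cases h4 : i ∈ T <;> simp_all [hsgn]

theorem xdiag_hchi (φ : Finset (Fin n) → ℝ) (T : Finset (Fin n)) :
    xdiag φ *ᵥ hchi T = (φ T : ℂ) • hchi T := by
  funext x
  have h1 : (xdiag φ *ᵥ hchi T) x =
      (1 / 2 ^ n) * ∑ S : Finset (Fin n), (φ S : ℂ) * hchi S x * (hchi S ⬝ᵥ hchi T) := by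
    unfold mulVec
    simp only [dotProduct, mul_sum]
    rw [sum_comm]
    refine sum_congr rfl fun y _ => ?_
    unfold xdiag
    rw [Complex.ofReal_mul, Complex.ofReal_sum, mul_sum, sum_mul]
    refine sum_congr rfl fun S _ => ?_
    rw [Complex.ofReal_mul, hchi_mul]
    push_cast
    ring
  rw [h1, sum_eq_single T]
  · rw [hchi_ortho, if_pos rfl, Pi.smul_apply, smul_eq_mul]
    have h2 : (2 : ℂ) ^ n ≠ 0 := pow_ne_zero _ two_ne_zero
    field_simp
  · intro S _ hS
    rw [hchi_ortho, if_neg hS, mul_zero]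
  · intro h
    exact absurd (mem_univ T) h

theorem xdiag_herm (φ : Finset (Fin n) → ℝ) : (xdiag φ).IsHermitian := by
  ext x y
  rw [conjTranspose_apply]
  unfold xdiag
  rw [diff_comm' y.1 x.1, Complex.star_def, Complex.conj_ofReal]

theorem xdiag_opnorm {φ : Finset (Fin n) → ℝ} {a : ℝ} (h : ∀ S, |φ S| ≤ a) : Bdd (xdiag φ) a :=
  xdiag_bdd (xdiag_herm φ) (xdiag_hchi φ) h

/-- Drivers which are diagonal in the Hadamard basis are admissible for every `z`. -/
theorem adm_xdiag {p : ℕ} {α κ Λ : ℝ} {φ : Finset (Fin n) → ℝ} (h0 : ∀ S, 0 ≤ φ S)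
    {S₀ : Finset (Fin n)} (he : φ S₀ = 0) (hs : ∑ S, φ S ≤ 2 ^ n)
    (hl : ((univ.filter fun S => φ S < κ).card : ℝ) ≤ 2 ^ (α * n))
    {a : Fin p → ℝ} (ha : ∑ i, |a i| ≤ Λ) {A : Op n Unit}
    (hA : ∀ x y, A x y = ((1 / 2 ^ n * ∑ S, φ S * (-1) ^ (S ∩ diff x.1 y.1).card : ℝ) : ℂ))
    (z : Cube n) : Adm α κ Λ a A z := by
  have h1 : A = xdiag φ := by
    ext x y
    rw [hA]
    rfl
  rw [h1]
  exact xdiag_adm (xdiag_herm φ) (xdiag_hchi φ) h0 he hs hl ha z

/-- the transverse field `1 - (X_1 + ... + X_n) / n` -/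
theorem xdiag_field (hn : 0 < n) :
    xdiag (fun S : Finset (Fin n) => 2 * (S.card : ℝ) / n) = 1 - field n := by
  have h1 : ∀ T : Finset (Fin n),
      (xdiag (fun S : Finset (Fin n) => 2 * (S.card : ℝ) / n) - (1 - field n)) *ᵥ hchi T = 0 := by
    intro T
    rw [sub_mulVec, sub_mulVec, one_mulVec, xdiag_hchi, field_hchi hn]
    funext x
    simp only [Pi.sub_apply, Pi.smul_apply, smul_eq_mul, Pi.zero_apply]
    unfold lev
    push_cast
    ring
  obtain ⟨B, hB⟩ : ∃ B, B = xdiag (fun S : Finset (Fin n) => 2 * (S.card : ℝ) / n) - (1 - field n) :=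
    ⟨_, rfl⟩
  rw [← hB] at h1
  have h2 : ∀ w, B *ᵥ w = 0 := by
    intro w
    have h3 : (2 : ℂ) ^ n • (B *ᵥ w) = 0 := by
      rw [← mulVec_smul, ← hchi_inv w, mulVec_sum]
      exact sum_eq_zero fun T _ => by rw [mulVec_smul, h1, smul_zero]
    exact (smul_eq_zero.1 h3).resolve_left (pow_ne_zero _ two_ne_zero)
  have h4 : B = 0 := by
    ext x y
    have := congrFun (h2 (Pi.single y 1)) x
    rw [mulVec_single_one] at this
    exact this
  rw [hB] at h4
  exact sub_eq_zero.1 h4

/-- The transverse field is admissible. -/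
theorem adm_field {α : ℝ} (hα : 0 < α) : ∃ κ : ℝ, 0 < κ ∧ κ ≤ 1 ∧ ∀ (n p : ℕ) (a : Fin p → ℝ)
    (Λ : ℝ) (z : Cube n), 0 < n → ∑ i, |a i| ≤ Λ → Adm α κ Λ a (1 - field n) z := by
  obtain ⟨ε, hε0, hε1, hε⟩ := ball hα
  refine ⟨2 * ε, by linarith, by linarith, fun n p a Λ z hn ha => ?_⟩
  have hn' : (0 : ℝ) < n := by exact_mod_cast hn
  rw [← xdiag_field hn]
  refine xdiag_adm (xdiag_herm _) (xdiag_hchi _) (fun S => by positivity) (T₀ := ∅) (by simp) ?_ ?_
    ha z
  · have h1 : ∑ S : Finset (Fin n), 2 * (S.card : ℝ) / n = 2 ^ n := by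
      have h2 : ∑ S : Finset (Fin n), S.card * 2 = n * 2 ^ n := by
        have h3 : ∑ S : Finset (Fin n), S.card * 2 = ∑ S : Finset (Fin n), (S.card + Sᶜ.card) := by
          rw [sum_add_distrib]
          have h4 : ∑ S : Finset (Fin n), Sᶜ.card = ∑ S : Finset (Fin n), S.card :=
            Fintype.sum_equiv ⟨fun S => Sᶜ, fun S => Sᶜ, fun S => compl_compl S,
              fun S => compl_compl S⟩ _ _ fun S => rfl
          rw [h4, ← sum_mul]
          ring
        rw [h3, sum_congr rfl fun S _ => by rw [card_add_card_compl, Fintype.card_fin], sum_const,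
          card_univ, Fintype.card_finset, Fintype.card_fin, smul_eq_mul, mul_comm]
      have h5 : ∑ S : Finset (Fin n), 2 * (S.card : ℝ) / n =
          ((∑ S : Finset (Fin n), S.card * 2 : ℕ) : ℝ) / n := by
        push_cast
        rw [sum_div]
        exact sum_congr rfl fun S _ => by ring
      rw [h5, h2]
      push_cast
      field_simp
    exact h1.le
  · refine le_trans ?_ (hε n)
    have h3 : (univ.filter fun S : Finset (Fin n) => 2 * (S.card : ℝ) / n < 2 * ε) ⊆
        univ.filter fun T : Finset (Fin n) => (T.card : ℝ) ≤ ε * n := by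
      intro T hT
      rw [mem_filter] at hT ⊢
      refine ⟨mem_univ _, ?_⟩
      have h4 := hT.2
      rw [div_lt_iff₀ hn'] at h4
      linarith
    exact_mod_cast card_le_card h3

end Pool.Agent.H73.AD
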